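import Pool.Agent.Helper97_WHT.Stmt
import Pool.Agent.Helper29_TMP.Cnt

/-!
# Row TMW of squad WHT (MP_eadad4_nt): the forms which are not tempered at infinity
-/

set_option autoImplicit false

open scoped BigOperators

namespace Pool.Agent.WHT.H62

open Pool.Agent.DEN Pool.Agent.TMP Pool.Agent.WHT

section
variable {r : ℕ} {C : Matrix (Fin r) (Fin r) ℤ} {K : Type} [Field K]

theorem deep_mono (hC : SimplyLaced C) {χ : grp C K → ℂ} {m : Fin r → ℤ} {D D' : ℕ}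
    (h : D' ≤ D) (hD : Deep hC χ m D) : Deep hC χ m D' := by
  intro i
  obtain ⟨h1, h2⟩ := hD i
  have h3 : (D' : ℤ) ≤ D := by exact_mod_cast h
  exact ⟨h3.trans h1, fun a ha => h2 a (Pool.Agent.TMP.H29.Bd_mono (by omega) ha)⟩

theorem good_of_deep (genx : GenxStmt) (hC : SimplyLaced C) {N : Polynomial K}
    {χ : grp C K → ℂ} (hχ : IsChi N χ) {m : Fin r → ℤ} {D : ℕ} (hD : Deep hC χ m D) :
    Good hC χ m := by
  obtain ⟨-, -, g3, g4⟩ := genx r C hC K
  refine ⟨?_, ?_⟩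
  · intro i
    have h1 := (hD i).1
    have h2 : (0 : ℤ) ≤ D := Int.natCast_nonneg D
    exact h2.trans h1
  · intro u hu hst
    rw [g3 N χ hχ u hu]
    refine Finset.prod_eq_one fun i _ => ?_
    refine (hD i).2 _ (Pool.Agent.TMP.H29.Bd_mono ?_ (g4 u hu m hst i))
    have h2 : (0 : ℤ) ≤ D := Int.natCast_nonneg D
    omega

end

theorem tmw (mea : MeaStmt) (det : DetStmt) (bsl : BslStmt) (genx : GenxStmt) : TmwStmt := by
  classical
  intro r C hC
  obtain ⟨c, hc0, hdet⟩ := det r C hC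
  refine ⟨4 * c ^ 2 + 2 * c, ?_⟩
  intro K _ _ N hN χ hχ m D hD n f hf heig hnt
  have hgood : Good hC χ m := good_of_deep genx hC hχ hD
  have hB := bsl r C hC K N hN χ hχ m hgood n f hf
  set W : ℝ := ∑ j, ‖wh hC N χ m (f j)‖ ^ 2 with hW
  have hW0 : 0 ≤ W := Finset.sum_nonneg fun j _ => sq_nonneg _
  have hV0 : 0 ≤ vol hC N m := hW0.trans hB
  have hc0' : (0 : ℝ) < c := by exact_mod_cast hc0
  by_cases hs : D < 2 * c
  · have h1 : (D : ℝ) ≤ 2 * c := by exact_mod_cast hs.le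
    have h2 : (D : ℝ) * W ≤ 2 * c * vol hC N m := mul_le_mul h1 hB hW0 (by positivity)
    have h3 : 0 ≤ 4 * (c : ℝ) ^ 2 * vol hC N m := by positivity
    push_cast
    linarith
  · obtain ⟨s, hs0⟩ : ∃ s, s = D / (2 * c) := ⟨_, rfl⟩
    have hc2 : 0 < 2 * c := by omega
    have hs1 : 1 ≤ s := by
      rw [hs0, Nat.le_div_iff_mul_le hc2]
      omega
    have hs2 : 2 * (c * s) ≤ D := by
      have h := Nat.div_mul_le_self D (2 * c)
      rw [← hs0] at h
      have h' : s * (2 * c) = 2 * (c * s) := by ring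
      omega
    have hs3 : D ≤ 4 * c * s := by
      have h := Nat.lt_mul_div_succ D hc2
      rw [← hs0] at h
      have h' : 2 * c * (s + 1) = 2 * c * s + 2 * c := by ring
      have h'' : 2 * c * 1 ≤ 2 * c * s := Nat.mul_le_mul_left _ hs1
      have h3 : 4 * c * s = 2 * c * s + 2 * c * s := by ring
      omega
    obtain ⟨M, k, hk1, hk2, hk3, hk4⟩ := hdet K s (by omega)
    have hN0 : N ≠ 0 := by
      rintro rfl
      simp at hN
    have hχ' := fun j => DEN.TMP.hChi r C hC K N hN0 (f j) (hf.1 j)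
      (by rw [hf.2, if_pos rfl]) (heig j)
    choose lam hl1 hl2 hl3 hl4 hl5 using hχ'
    obtain ⟨κ, hκ⟩ : ∃ κ : Fin M → grp C K → ℂ,
        ∀ i, κ i = fun g : grp C K => k i (oo C K) (g • oo C K) := ⟨_, fun i => rfl⟩
    have hmv : ∀ i, ∑ j, ‖lam j (κ i)‖ ^ 2 * ‖wh hC N χ m (f j)‖ ^ 2 ≤
        (∑ᶠ l, ‖sat hC (k i) l‖ ^ 2) * vol hC N m := by
      intro i
      obtain ⟨hk5, hk6, -, -⟩ := (hKhk r C hC K).1 (k i) (hk1 i)
      refine mea r C hC K N hN χ hχ m (c * s) (deep_mono hC hs2 hD) n f hf (k i) (hk1 i) (hk2 i)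
        (fun j => lam j (κ i)) ?_
      intro j x
      have h1 := hl4 j (κ i) (by rw [hκ]; exact hk5) x
      rw [← h1]
      refine finsum_congr fun y => ?_
      rw [hκ, hk6 x y]
    have h1 : W ≤ ∑ i, ∑ j, ‖lam j (κ i)‖ ^ 2 * ‖wh hC N χ m (f j)‖ ^ 2 := by
      rw [Finset.sum_comm, hW]
      refine Finset.sum_le_sum fun j _ => ?_
      obtain ⟨i, hi⟩ := hk4 (lam j) (hl1 j) (hl2 j) (fun h => hnt j (hl5 j h))
      have hi' : 1 ≤ ‖lam j (κ i)‖ := by rw [hκ]; exact hi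
      have h2 : (1 : ℝ) ≤ ‖lam j (κ i)‖ ^ 2 := one_le_pow₀ hi'
      calc ‖wh hC N χ m (f j)‖ ^ 2 ≤ ‖lam j (κ i)‖ ^ 2 * ‖wh hC N χ m (f j)‖ ^ 2 :=
            le_mul_of_one_le_left (sq_nonneg _) h2
        _ ≤ _ := Finset.single_le_sum
            (f := fun i => ‖lam j (κ i)‖ ^ 2 * ‖wh hC N χ m (f j)‖ ^ 2)
            (fun i _ => by positivity) (Finset.mem_univ i)
    have h2 : ∑ i, ∑ j, ‖lam j (κ i)‖ ^ 2 * ‖wh hC N χ m (f j)‖ ^ 2 ≤
        (c : ℝ) / s * vol hC N m := by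
      refine (Finset.sum_le_sum fun i _ => hmv i).trans ?_
      rw [← Finset.sum_mul]
      exact mul_le_mul_of_nonneg_right hk3 hV0
    have hs0' : (0 : ℝ) < s := by
      have : 0 < s := by omega
      exact_mod_cast this
    have h3 : (D : ℝ) ≤ 4 * c * s := by exact_mod_cast hs3
    have h4 : (D : ℝ) * W ≤ (4 * c * s) * ((c : ℝ) / s * vol hC N m) :=
      mul_le_mul h3 (h1.trans h2) hW0 (by positivity)
    have h5 : (4 * c * s) * ((c : ℝ) / s * vol hC N m) = 4 * (c : ℝ) ^ 2 * vol hC N m := by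
      field_simp
    have h6 : 0 ≤ 2 * (c : ℝ) * vol hC N m := by positivity
    push_cast
    rw [h5] at h4
    linarith

end Pool.Agent.WHT.H62
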